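import Pool.Agent.helper52.HY.Spec
import Pool.Agent.helper25.HY.MOB

set_option autoImplicit false

open Complex Metric Set Filter Topology

noncomputable section

namespace HY

/-- LANDAU: a self map of the disc which vanishes at `e` and has hyperbolic derivative at least `c` there
has a univalent inverse branch on a disc of definite size around `0`. -/
def LANDAU_stmt : Prop := ∀ c : ℝ, 0 < c → ∃ c₂ : ℝ, 0 < c₂ ∧ c₂ < 1 ∧ ∀ (F : ℂ → ℂ) (e : ℂ),
  DifferentiableOn ℂ F UD → MapsTo F UD UD → e ∈ UD → F e = 0 → c ≤ ‖deriv F e‖ * (1 - ‖e‖ ^ 2) →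
  ∃ G : ℂ → ℂ, UN G ∧ G 0 = e ∧ (∀ y ∈ UD, F (G y) = c₂ * y) ∧ (∀ y ∈ UD, ‖T e (G y)‖ ≤ 1 / 2) ∧
    c₂ * (1 - ‖e‖ ^ 2) ≤ ‖deriv G 0‖

/-- the core: maps with `F 0 = 0`. -/
theorem LANDAU_core (c : ℝ) (hc : 0 < c) (hc1 : c ≤ 1) (F : ℂ → ℂ) (hF : DifferentiableOn ℂ F UD)
    (hm : MapsTo F UD UD) (h0 : F 0 = 0) (hd : c ≤ ‖deriv F 0‖) :
    ∃ w : ℂ → ℂ, DifferentiableOn ℂ w UD ∧ InjOn w UD ∧ (∀ y ∈ UD, ‖w y‖ ≤ c / 128) ∧ w 0 = 0 ∧
      (∀ y ∈ UD, F (w y) = ((c ^ 2 / 256 : ℝ) : ℂ) * y) := by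
  have hUo : IsOpen UD := isOpen_ball
  set a : ℂ := deriv F 0 with ha
  have ha0 : a ≠ 0 := by
    intro h
    rw [h, norm_zero] at hd
    linarith
  have hball : ∀ z : ℂ, ‖z‖ < 1 → z ∈ UD := fun z hz => by
    show z ∈ ball (0 : ℂ) 1
    rwa [mem_ball_zero_iff]
  have hlt : ∀ z ∈ UD, ‖F z‖ < 1 := fun z hz => by
    have := hm hz
    rwa [show UD = ball (0 : ℂ) 1 from rfl, mem_ball_zero_iff] at this
  -- first derivative
  have hd1 : ∀ z : ℂ, ‖z‖ ≤ 1 / 4 → ‖deriv F z‖ ≤ 4 := by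
    intro z hz
    have h1 : ∀ x ∈ sphere z (1 / 4), ‖F x‖ ≤ 1 := by
      intro x hx
      rw [mem_sphere, dist_eq_norm] at hx
      refine (hlt x (hball x ?_)).le
      calc ‖x‖ = ‖(x - z) + z‖ := by ring_nf
        _ ≤ ‖x - z‖ + ‖z‖ := norm_add_le _ _
        _ < 1 := by linarith
    have h2 : DiffContOnCl ℂ F (ball z (1 / 4)) := by
      apply DifferentiableOn.diffContOnCl
      rw [closure_ball z (by norm_num)]
      refine hF.mono fun x hx => hball x ?_
      rw [mem_closedBall, dist_eq_norm] at hx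
      calc ‖x‖ = ‖(x - z) + z‖ := by ring_nf
        _ ≤ ‖x - z‖ + ‖z‖ := norm_add_le _ _
        _ < 1 := by linarith
    have h3 := Complex.norm_deriv_le_of_forall_mem_sphere_norm_le (by norm_num : (0 : ℝ) < 1 / 4) h2 h1
    norm_num at h3
    exact h3
  have hF' : DifferentiableOn ℂ (deriv F) UD := hF.deriv hUo
  have hd2 : ∀ z : ℂ, ‖z‖ ≤ 1 / 8 → ‖deriv (deriv F) z‖ ≤ 32 := by
    intro z hz
    have h1 : ∀ x ∈ sphere z (1 / 8), ‖deriv F x‖ ≤ 4 := by
      intro x hx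
      rw [mem_sphere, dist_eq_norm] at hx
      refine hd1 x ?_
      calc ‖x‖ = ‖(x - z) + z‖ := by ring_nf
        _ ≤ ‖x - z‖ + ‖z‖ := norm_add_le _ _
        _ ≤ 1 / 4 := by linarith
    have h2 : DiffContOnCl ℂ (deriv F) (ball z (1 / 8)) := by
      apply DifferentiableOn.diffContOnCl
      rw [closure_ball z (by norm_num)]
      refine hF'.mono fun x hx => hball x ?_
      rw [mem_closedBall, dist_eq_norm] at hx
      calc ‖x‖ = ‖(x - z) + z‖ := by ring_nf
        _ ≤ ‖x - z‖ + ‖z‖ := norm_add_le _ _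
        _ < 1 := by linarith
    have h3 := Complex.norm_deriv_le_of_forall_mem_sphere_norm_le (by norm_num : (0 : ℝ) < 1 / 8) h2 h1
    norm_num at h3
    exact h3
  have hd3 : ∀ z ∈ ball (0 : ℂ) (c / 64), ‖deriv F z - a‖ ≤ c / 2 := by
    intro z hz
    rw [mem_ball_zero_iff] at hz
    have hz' : ‖z‖ ≤ 1 / 8 := by linarith
    have h1 : ∀ x ∈ closedBall (0 : ℂ) (1 / 8), DifferentiableAt ℂ (deriv F) x := by
      intro x hx
      rw [mem_closedBall_zero_iff] at hx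
      exact hF'.differentiableAt (hUo.mem_nhds (hball x (by linarith)))
    have h2 : ∀ x ∈ closedBall (0 : ℂ) (1 / 8), ‖deriv (deriv F) x‖ ≤ 32 := by
      intro x hx
      rw [mem_closedBall_zero_iff] at hx
      exact hd2 x hx
    have h3 := (convex_closedBall (0 : ℂ) (1 / 8)).norm_image_sub_le_of_norm_deriv_le h1 h2
      (mem_closedBall_self (by norm_num)) (mem_closedBall_zero_iff.mpr hz')
    rw [sub_zero] at h3
    calc ‖deriv F z - a‖ ≤ 32 * ‖z‖ := h3
      _ ≤ c / 2 := by linarith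
  have happ : ∀ x ∈ ball (0 : ℂ) (c / 64), ∀ y ∈ ball (0 : ℂ) (c / 64),
      ‖F x - F y - a * (x - y)‖ ≤ c / 2 * ‖x - y‖ := by
    intro x hx y hy
    have h1 : ∀ z ∈ ball (0 : ℂ) (c / 64), HasDerivWithinAt (fun z => F z - a * z) (deriv F z - a)
        (ball (0 : ℂ) (c / 64)) z := by
      intro z hz
      rw [mem_ball_zero_iff] at hz
      have h2 : DifferentiableAt ℂ F z := hF.differentiableAt (hUo.mem_nhds (hball z (by linarith)))
      have h3 : HasDerivAt (fun z => a * z) a z := by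
        simpa using (hasDerivAt_id z).const_mul a
      exact (h2.hasDerivAt.sub h3).hasDerivWithinAt
    have h4 := (convex_ball (0 : ℂ) (c / 64)).norm_image_sub_le_of_norm_hasDerivWithin_le h1 hd3 hy hx
    calc ‖F x - F y - a * (x - y)‖ = ‖(F x - a * x) - (F y - a * y)‖ := by ring_nf
      _ ≤ c / 2 * ‖x - y‖ := h4
  have hlow : ∀ x ∈ ball (0 : ℂ) (c / 64), ∀ y ∈ ball (0 : ℂ) (c / 64),
      c / 2 * ‖x - y‖ ≤ ‖F x - F y‖ := by
    intro x hx y hy
    have h1 := happ x hx y hy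
    have h2 : ‖a * (x - y)‖ - ‖F x - F y‖ ≤ ‖a * (x - y) - (F x - F y)‖ := norm_sub_norm_le _ _
    rw [norm_sub_rev (a * (x - y)) (F x - F y), norm_mul] at h2
    have h3 : c * ‖x - y‖ ≤ ‖a‖ * ‖x - y‖ := mul_le_mul_of_nonneg_right hd (norm_nonneg _)
    linarith
  -- surjectivity
  have hsurj : ∀ y ∈ UD, ∃ w : ℂ, ‖w‖ ≤ c / 128 ∧ F w = ((c ^ 2 / 256 : ℝ) : ℂ) * y := by
    intro y hy
    have hy1 : ‖y‖ < 1 := by rwa [show UD = ball (0 : ℂ) 1 from rfl, mem_ball_zero_iff] at hy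
    let L : ℂ →L[ℂ] ℂ := ContinuousLinearMap.mul ℂ ℂ a
    have hL : ∀ z, L z = a * z := fun z => rfl
    let R : L.NonlinearRightInverse :=
      { toFun := fun z => z / a
        nnnorm := ‖a‖₊⁻¹
        bound' := fun z => by
          rw [norm_div, div_eq_inv_mul]
          simp
        right_inv' := fun z => by
          rw [hL]; field_simp }
    have hA : ApproximatesLinearOn F L (ball (0 : ℂ) (c / 64)) (Real.toNNReal (c / 2)) := by
      intro x hx y hy
      rw [Real.coe_toNNReal _ (by positivity), hL]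
      exact happ x hx y hy
    have hS := hA.surjOn_closedBall_of_nonlinearRightInverse R (ε := c / 128) (b := 0) (by positivity)
      (closedBall_subset_ball (by linarith))
    rw [h0] at hS
    have hR : ((R.nnnorm : ℝ)⁻¹ - (Real.toNNReal (c / 2) : ℝ)) = ‖a‖ - c / 2 := by
      rw [Real.coe_toNNReal _ (by positivity)]
      show ((‖a‖₊⁻¹ : NNReal) : ℝ)⁻¹ - c / 2 = _
      simp
    rw [hR] at hS
    have hmem : ((c ^ 2 / 256 : ℝ) : ℂ) * y ∈ closedBall (0 : ℂ) ((‖a‖ - c / 2) * (c / 128)) := by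
      rw [mem_closedBall_zero_iff, norm_mul, Complex.norm_real, Real.norm_of_nonneg (by positivity)]
      have h1 : c ^ 2 / 256 * ‖y‖ ≤ c ^ 2 / 256 := by
        have : 0 < c ^ 2 / 256 := by positivity
        nlinarith
      have h2 : c / 2 * (c / 128) ≤ (‖a‖ - c / 2) * (c / 128) :=
        mul_le_mul_of_nonneg_right (by linarith) (by positivity)
      nlinarith
    obtain ⟨w, hw, hw'⟩ := hS hmem
    exact ⟨w, by rwa [mem_closedBall_zero_iff] at hw, hw'⟩
  choose! w hw1 hw2 using hsurj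
  have hwb : ∀ y ∈ UD, w y ∈ ball (0 : ℂ) (c / 64) := fun y hy => by
    rw [mem_ball_zero_iff]
    have := hw1 y hy
    linarith
  have hc2 : (0 : ℝ) < c ^ 2 / 256 := by positivity
  have hc2c : ((c ^ 2 / 256 : ℝ) : ℂ) ≠ 0 := by exact_mod_cast hc2.ne'
  have hLip : ∀ x ∈ UD, ∀ y ∈ UD, ‖w x - w y‖ ≤ c / 128 * ‖x - y‖ := by
    intro x hx y hy
    have h1 := hlow _ (hwb x hx) _ (hwb y hy)
    rw [hw2 x hx, hw2 y hy, ← mul_sub, norm_mul, Complex.norm_real, Real.norm_of_nonneg hc2.le] at h1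
    have h2 : c / 2 * ‖w x - w y‖ ≤ c / 2 * (c / 128 * ‖x - y‖) := by
      calc c / 2 * ‖w x - w y‖ ≤ c ^ 2 / 256 * ‖x - y‖ := h1
        _ = c / 2 * (c / 128 * ‖x - y‖) := by ring
    exact le_of_mul_le_mul_left h2 (by positivity)
  have hcont : ContinuousOn w UD := by
    intro x hx
    rw [Metric.continuousWithinAt_iff]
    intro ε hε
    refine ⟨ε, hε, fun y hy hyx => ?_⟩
    rw [dist_eq_norm] at hyx ⊢
    have h1 := hLip y hy x hx
    have h2 : 0 ≤ ‖y - x‖ := norm_nonneg _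
    nlinarith
  refine ⟨w, ?_, ?_, hw1, ?_, hw2⟩
  · intro y hy
    have hy' : UD ∈ 𝓝 y := hUo.mem_nhds hy
    have h1 : DifferentiableAt ℂ F (w y) := by
      have := hw1 y hy
      exact hF.differentiableAt (hUo.mem_nhds (hball _ (by linarith)))
    have h2 : deriv F (w y) ≠ 0 := by
      intro h
      have h3 := hd3 _ (hwb y hy)
      rw [h, zero_sub, norm_neg] at h3
      linarith
    have h3 : HasDerivAt (fun z => F z / ((c ^ 2 / 256 : ℝ) : ℂ)) (deriv F (w y) / ((c ^ 2 / 256 : ℝ) : ℂ)) (w y) :=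
      h1.hasDerivAt.div_const _
    have h4 := HasDerivAt.of_local_left_inverse (hcont.continuousAt hy') h3 (div_ne_zero h2 hc2c)
      (by
        filter_upwards [hy'] with z hz
        rw [hw2 z hz]
        field_simp)
    exact h4.differentiableAt.differentiableWithinAt
  · intro x hx y hy hxy
    have h1 : F (w x) = F (w y) := by rw [hxy]
    rw [hw2 x hx, hw2 y hy] at h1
    exact mul_left_cancel₀ hc2c h1
  · have h00 : (0 : ℂ) ∈ UD := hball 0 (by simp)
    have h1 := hlow _ (hwb 0 h00) 0 (by rw [mem_ball_zero_iff, norm_zero]; positivity)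
    rw [hw2 0 h00, h0, mul_zero, sub_zero, sub_zero, norm_zero] at h1
    have h2 : ‖w 0‖ ≤ 0 := by
      by_contra h
      push Not at h
      have : 0 < c / 2 * ‖w 0‖ := by positivity
      linarith
    exact norm_le_zero_iff.mp h2

theorem LANDAU : LANDAU_stmt := by
  intro c₀ hc₀
  set c : ℝ := min c₀ 1 with hcdef
  have hc : 0 < c := lt_min hc₀ one_pos
  have hc1 : c ≤ 1 := min_le_right _ _
  refine ⟨c ^ 2 / 256, by positivity, by nlinarith, ?_⟩
  intro F e hF hm he hFe hd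
  have hUo : IsOpen UD := isOpen_ball
  obtain ⟨hM1, hM2, hM3, hM4, hM5, hM6, hM7, hM8, hM9, hM10, hM11, hM12⟩ := MOB e he
  have h00 : (0 : ℂ) ∈ UD := by
    show (0 : ℂ) ∈ ball (0 : ℂ) 1
    simp
  have hSm : MapsTo (S e) UD UD := fun x hx => (hM1 x hx).2.1
  have hF1 : DifferentiableOn ℂ (fun x => F (S e x)) UD := hF.comp hM5 hSm
  have hm1 : MapsTo (fun x => F (S e x)) UD UD := fun x hx => hm (hSm hx)
  have hderiv : deriv (fun x => F (S e x)) 0 = deriv F e * (1 - (‖e‖ : ℂ) ^ 2) := by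
    have h1 : HasDerivAt F (deriv F e) (S e 0) := by
      rw [hM3]
      exact (hF.differentiableAt (hUo.mem_nhds he)).hasDerivAt
    have h2 : HasDerivAt (S e) (deriv (S e) 0) 0 :=
      (hM5.differentiableAt (hUo.mem_nhds h00)).hasDerivAt
    have h3 := (h1.comp (0 : ℂ) h2).deriv
    rw [hM11] at h3
    exact h3
  have he1 : ‖e‖ < 1 := by rwa [show UD = ball (0 : ℂ) 1 from rfl, mem_ball_zero_iff] at he
  have hn : ‖(1 - (‖e‖ : ℂ) ^ 2)‖ = 1 - ‖e‖ ^ 2 := by
    have : (1 - (‖e‖ : ℂ) ^ 2) = ((1 - ‖e‖ ^ 2 : ℝ) : ℂ) := by push_cast; ring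
    rw [this, Complex.norm_real, Real.norm_of_nonneg]
    nlinarith [norm_nonneg e]
  obtain ⟨w, hw1, hw2, hw3, hw4, hw5⟩ := LANDAU_core c hc hc1 (fun x => F (S e x)) hF1 hm1
    (by simp only [hM3, hFe]) (by
      rw [hderiv, norm_mul, hn]
      exact (min_le_left _ _).trans hd)
  have hwU : MapsTo w UD UD := fun y hy => by
    show w y ∈ ball (0 : ℂ) 1
    rw [mem_ball_zero_iff]
    have := hw3 y hy
    linarith
  refine ⟨fun y => S e (w y), ⟨hM5.comp hw1 hwU, ?_, fun y hy => hSm (hwU hy)⟩, ?_, hw5, ?_, ?_⟩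
  · exact hM7.comp hw2 hwU
  · simp only [hw4, hM3]
  · intro y hy
    show ‖T e (S e (w y))‖ ≤ 1 / 2
    rw [(hM1 _ (hwU hy)).2.2.2]
    have := hw3 y hy
    linarith
  · have hG : DifferentiableOn ℂ (fun y => S e (w y)) UD := hM5.comp hw1 hwU
    have hG0 : HasDerivAt (fun y => S e (w y)) (deriv (fun y => S e (w y)) 0) 0 :=
      (hG.differentiableAt (hUo.mem_nhds h00)).hasDerivAt
    have hval : S e (w 0) = e := by simp only [hw4, hM3]
    have hFd : HasDerivAt F (deriv F e) (S e (w 0)) := by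
      rw [hval]
      exact (hF.differentiableAt (hUo.mem_nhds he)).hasDerivAt
    have h3 : HasDerivAt (fun y => F (S e (w y))) (deriv F e * deriv (fun y => S e (w y)) 0) 0 :=
      hFd.comp (0 : ℂ) hG0
    have h4 : HasDerivAt (fun y : ℂ => ((c ^ 2 / 256 : ℝ) : ℂ) * y) ((c ^ 2 / 256 : ℝ) : ℂ) 0 := by
      have := (hasDerivAt_id (0 : ℂ)).const_mul ((c ^ 2 / 256 : ℝ) : ℂ)
      rw [mul_one] at this
      exact this
    have h5 : (fun y => F (S e (w y))) =ᶠ[𝓝 0] fun y : ℂ => ((c ^ 2 / 256 : ℝ) : ℂ) * y := by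
      filter_upwards [hUo.mem_nhds h00] with y hy
      exact hw5 y hy
    have h6 := h3.unique (h4.congr_of_eventuallyEq h5)
    have h7 : ‖deriv F e‖ * (1 - ‖e‖ ^ 2) ≤ 1 := by
      have h8 := Complex.norm_deriv_le_div_of_mapsTo_ball (f := fun x => F (S e x)) (c := 0) (R₁ := 1)
        (R₂ := 1) hF1 (by
          simp only [hM3, hFe]
          exact fun x hx => ball_subset_closedBall (hm1 hx)) one_pos
      rw [hderiv, norm_mul, hn] at h8
      simpa using h8
    have h9 : ‖deriv F e‖ * ‖deriv (fun y => S e (w y)) 0‖ = c ^ 2 / 256 := by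
      rw [← norm_mul, h6, Complex.norm_real, Real.norm_of_nonneg (by positivity)]
    have h10 : 0 < 1 - ‖e‖ ^ 2 := by nlinarith [norm_nonneg e]
    calc c ^ 2 / 256 * (1 - ‖e‖ ^ 2)
        = (‖deriv F e‖ * (1 - ‖e‖ ^ 2)) * ‖deriv (fun y => S e (w y)) 0‖ := by rw [← h9]; ring
      _ ≤ 1 * ‖deriv (fun y => S e (w y)) 0‖ := mul_le_mul_of_nonneg_right h7 (norm_nonneg _)
      _ = ‖deriv (fun y => S e (w y)) 0‖ := one_mul _

end HY
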