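import Pool.Agent.helper36.MS.Defs
import Pool.Agent.helper95.MM.LAN

set_option autoImplicit false

namespace MS

theorem LANDAU : LANDAU_stmt := by
  intro c hc
  obtain ⟨c₂, h1, h2, h3⟩ := HY.LANDAU c hc
  refine ⟨c₂, h1, h2, fun F e hF hm he hFe hd => ?_⟩
  obtain ⟨G, hG1, hG2, hG3, -, -⟩ := h3 F e hF hm he hFe hd
  exact ⟨G, hG1, hG2, hG3⟩

end MS
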